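import Pool.Agent.helper86.BK.Spec

/-! KAK: the weak arithmetic Kakeya statement gives the lower Minkowski dimension of Kakeya sets. -/

set_option autoImplicit false

namespace Pool.Agent.BK

theorem KAK_pow (s A : ℝ) (hs : 0 < s) :
    ∃ ρ₀ : ℝ, 0 < ρ₀ ∧ ∀ ρ : ℝ, 0 < ρ → ρ < ρ₀ → A ≤ ρ ^ (-s) := by
  have hA : 0 < |A| + 1 := by positivity
  refine ⟨(|A| + 1) ^ (-(1 / s)), Real.rpow_pos_of_pos hA _, fun ρ hρ hlt => ?_⟩
  have h1 : ρ ^ s ≤ ((|A| + 1) ^ (-(1 / s))) ^ s :=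
    Real.rpow_le_rpow hρ.le hlt.le hs.le
  rw [← Real.rpow_mul hA.le] at h1
  have h2 : -(1 / s) * s = -1 := by field_simp
  rw [h2, Real.rpow_neg_one] at h1
  have h3 : 0 < ρ ^ s := Real.rpow_pos_of_pos hρ _
  rw [Real.rpow_neg hρ.le]
  have h4 : |A| + 1 ≤ (ρ ^ s)⁻¹ := by
    rw [le_inv_comm₀ hA h3]
    exact h1
  linarith [le_abs_self A]

/-- the final comparison of exponents -/
theorem KAK_exp (c ε ε' δ j a e : ℝ) (hc0 : 0 ≤ c) (hj : 1 ≤ j) (hε' : 0 < ε')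
    (h1 : ε' * (2 * j * (3 + 2 * j)) ≤ ε) (h4 : ε' * (4 * j) ≤ 1)
    (hδ : 0 < δ) (hδε : δ < ε') (ha : a = 1 - 2 * j * δ) (he : e = 1 - c - ε') (hc1 : c ≤ 1) :
    1 + j - c * j - ε / 2 ≤ a * (1 + j * e) ∧ 0 ≤ 1 + j * e ∧ 1 + j * e ≤ 1 + j ∧ 1 / 2 < a ∧
      a ≤ 1 := by
  have hj0 : 0 < j := by linarith
  have hje : j * e ≤ j := by nlinarith
  have hje0 : 0 ≤ 1 + j * e := by
    have : -(j * ε') ≤ j * e := by
      rw [he]
      nlinarith
    nlinarith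
  have hη : 2 * j * δ < 1 / 2 := by nlinarith
  have hη0 : 0 < 2 * j * δ := by positivity
  refine ⟨?_, hje0, by linarith, by linarith, by linarith⟩
  have key : 2 * j * δ * (1 + j * e) ≤ 2 * j * ε' * (1 + j) := by
    have s1 : 2 * j * δ ≤ 2 * j * ε' := by nlinarith
    have s2 : 1 + j * e ≤ 1 + j := by linarith
    exact mul_le_mul s1 s2 hje0 (by positivity)
  have e2 : j * e = j - c * j - j * ε' := by rw [he]; ring
  have : a * (1 + j * e) = (1 + j * e) - 2 * j * δ * (1 + j * e) := by rw [ha]; ring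
  rw [this]
  nlinarith

theorem KAK (hSLI : SLI_stmt) (hDIG : DIG_stmt) : KAK_stmt := by
  intro c hc0 hc1 hFW j hj K hK ε hε
  obtain ⟨C, hC, hS⟩ := hSLI j K hK
  have hjR : (1 : ℝ) ≤ j := by exact_mod_cast hj
  have hj0 : (0 : ℝ) < j := by linarith
  obtain ⟨ε', hε'0, h1, h4⟩ : ∃ ε' : ℝ, 0 < ε' ∧ ε' * (2 * j * (3 + 2 * j)) ≤ ε ∧
      ε' * (4 * j) ≤ 1 := by
    refine ⟨min (1 / (4 * j)) (ε / (2 * j * (3 + 2 * j))), lt_min (by positivity) (by positivity),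
      ?_, ?_⟩
    · rw [← le_div_iff₀ (by positivity)]
      exact min_le_right _ _
    · rw [← le_div_iff₀ (by positivity)]
      exact min_le_left _ _
  obtain ⟨δ, hδ, hδε, M₀, hM⟩ := hFW ε' hε'0
  obtain ⟨hx1, hx2, hx3, hx4, hx5⟩ := KAK_exp c ε ε' δ j (1 - 2 * j * δ) (1 - c - ε') hc0 hjR hε'0
    h1 h4 hδ hδε rfl rfl hc1
  set a : ℝ := 1 - 2 * j * δ with ha
  set e : ℝ := 1 - c - ε' with he
  have ha0 : 0 < a := by linarith
  obtain ⟨r1, hr1, hr1'⟩ := KAK_pow a (4 + 4 * M₀) ha0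
  obtain ⟨r2, hr2, hr2'⟩ := KAK_pow (j * δ) (2 * C + 1) (by positivity)
  obtain ⟨r3, hr3, hr3'⟩ := KAK_pow (ε / 2) (2 ^ (j + 2)) (by positivity)
  refine ⟨min (min r1 r2) (min r3 (min 1 (1 / C))), by positivity, ?_⟩
  intro ρ hρ hlt T hT
  have l1 : ρ < r1 := hlt.trans_le ((min_le_left _ _).trans (min_le_left _ _))
  have l2 : ρ < r2 := hlt.trans_le ((min_le_left _ _).trans (min_le_right _ _))
  have l3 : ρ < r3 := hlt.trans_le ((min_le_right _ _).trans (min_le_left _ _))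
  have l4 : ρ < 1 := hlt.trans_le ((min_le_right _ _).trans ((min_le_right _ _).trans
    (min_le_left _ _)))
  have l5 : ρ < 1 / C := hlt.trans_le ((min_le_right _ _).trans ((min_le_right _ _).trans
    (min_le_right _ _)))
  have b1 := hr1' ρ hρ l1
  have b2 := hr2' ρ hρ l2
  have b3 := hr3' ρ hρ l3
  set X : ℝ := ρ ^ (-a) with hX
  have hX0 : 0 < X := Real.rpow_pos_of_pos hρ _
  have hM0 : (0 : ℝ) ≤ M₀ := Nat.cast_nonneg _
  set D : ℕ := ⌊X⌋₊ with hD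
  have hDX : (D : ℝ) ≤ X := Nat.floor_le hX0.le
  have hDX' : X / 2 ≤ D := by
    have := Nat.lt_floor_add_one X
    linarith
  have hD2 : (2 : ℝ) ≤ D := by linarith
  have hD2' : 2 ≤ D := by exact_mod_cast hD2
  have hD0 : (0 : ℝ) < D := by linarith
  set L : ℕ := ⌊1 / (C * (D * ρ))⌋₊ with hL
  have hpos : 0 < 1 / (C * (D * ρ)) := by positivity
  have hLle : (L : ℝ) ≤ 1 / (C * (D * ρ)) := Nat.floor_le hpos.le
  have hLmul : C * (L * D * ρ) ≤ 1 := by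
    have h := hLle
    rw [le_div_iff₀ (by positivity)] at h
    nlinarith
  have hCρ : C * ρ ≤ 1 := by
    rw [lt_div_iff₀ hC] at l5
    linarith
  obtain ⟨B, hB, hBA⟩ := hS ρ D L T hρ (by omega) hCρ hLmul hT
  obtain ⟨B', hB', hBA'⟩ := hDIG j D L B (by omega) hBA
  -- the number M
  have hDj : D ≤ D ^ j := Nat.le_self_pow (by omega) D
  set M : ℕ := D ^ j - 1 with hMdef
  have hMcast : (M : ℝ) = (D : ℝ) ^ j - 1 := by
    have : 1 ≤ D ^ j := by omega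
    rw [hMdef, Nat.cast_sub this]
    push_cast
    ring
  have hDjR : (D : ℝ) ≤ (D : ℝ) ^ j := by exact_mod_cast hDj
  have hMhalf : (D : ℝ) ^ j / 2 ≤ M := by
    rw [hMcast]
    linarith
  have hMpos : (0 : ℝ) < M := by linarith
  have hMle : (M : ℝ) ≤ (D : ℝ) ^ j := by
    rw [hMcast]
    linarith
  have hMM : M₀ ≤ M := by
    have : (M₀ : ℝ) ≤ M := by linarith
    exact_mod_cast this
  -- M ^ δ ≤ L
  set Y : ℝ := ρ ^ (-(j * δ)) with hY
  have hY0 : 0 < Y := Real.rpow_pos_of_pos hρ _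
  have hMδ : (M : ℝ) ^ δ ≤ Y := by
    have s1 : (M : ℝ) ^ δ ≤ ((D : ℝ) ^ j) ^ δ := Real.rpow_le_rpow hMpos.le hMle hδ.le
    have s2 : ((D : ℝ) ^ j) ^ δ ≤ (X ^ j) ^ δ :=
      Real.rpow_le_rpow (by positivity) (pow_le_pow_left₀ hD0.le hDX j) hδ.le
    have s3 : (X ^ j) ^ δ = ρ ^ (-a * (j * δ)) := by
      rw [hX, ← Real.rpow_natCast, ← Real.rpow_mul hρ.le, ← Real.rpow_mul hρ.le]
      congr 1
      ring
    have s4 : ρ ^ (-a * (j * δ)) ≤ Y := by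
      apply Real.rpow_le_rpow_of_exponent_ge hρ l4.le
      have : 0 < (j : ℝ) * δ := by positivity
      nlinarith
    calc (M : ℝ) ^ δ ≤ ((D : ℝ) ^ j) ^ δ := s1
      _ ≤ (X ^ j) ^ δ := s2
      _ = ρ ^ (-a * (j * δ)) := s3
      _ ≤ Y := s4
  have hLge : Y ≤ L := by
    have t1 : 1 / (C * (D * ρ)) - 1 < L := by
      have := Nat.lt_floor_add_one (1 / (C * (D * ρ)))
      linarith
    have t2 : Y ^ 2 / C ≤ 1 / (C * (D * ρ)) := by
      have u1 : Y ^ 2 * (X * ρ) = 1 := by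
        rw [hY, hX, ← Real.rpow_natCast, ← Real.rpow_mul hρ.le]
        nth_rewrite 3 [← Real.rpow_one ρ]
        rw [← Real.rpow_add hρ, ← Real.rpow_add hρ]
        have : -(↑j * δ) * ((2 : ℕ) : ℝ) + (-a + 1) = 0 := by
          rw [ha]
          push_cast
          ring
        rw [this, Real.rpow_zero]
      have u2 : Y ^ 2 * (D * ρ) ≤ 1 := by
        rw [← u1]
        apply mul_le_mul_of_nonneg_left _ (by positivity)
        exact mul_le_mul_of_nonneg_right hDX hρ.le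
      rw [div_le_div_iff₀ hC (by positivity)]
      nlinarith
    have t3 : Y + 1 ≤ Y ^ 2 / C := by
      rw [le_div_iff₀ hC]
      nlinarith
    linarith
  have hap : ∀ q : ℕ, 1 ≤ q → q ≤ M → HasAP B' q ((M : ℝ) ^ δ) := by
    intro q hq1 hq2
    obtain ⟨b, hb⟩ := hBA' q (by omega)
    refine ⟨b, fun k hk => hb k ?_⟩
    have : (k : ℝ) < L := by linarith
    exact_mod_cast this
  have hfin := hM M hMM B' hap
  -- M ^ e ≥ D ^ (j e) / 2
  have hMe : (D : ℝ) ^ ((j : ℝ) * e) / 2 ≤ (M : ℝ) ^ e := by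
    have hpw : ((D : ℝ) ^ j) ^ e = (D : ℝ) ^ ((j : ℝ) * e) := by
      rw [← Real.rpow_natCast, ← Real.rpow_mul hD0.le]
    have hDe0 : 0 < (D : ℝ) ^ ((j : ℝ) * e) := Real.rpow_pos_of_pos hD0 _
    rcases le_or_gt 0 e with h0 | h0
    · have s1 : ((D : ℝ) ^ j / 2) ^ e ≤ (M : ℝ) ^ e :=
        Real.rpow_le_rpow (by positivity) hMhalf h0
      rw [Real.div_rpow (by positivity) (by norm_num), hpw] at s1
      refine le_trans ?_ s1
      apply div_le_div_of_nonneg_left hDe0.le (by positivity)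
      calc (2 : ℝ) ^ e ≤ (2 : ℝ) ^ (1 : ℝ) :=
            Real.rpow_le_rpow_of_exponent_le (by norm_num) (by linarith)
        _ = 2 := Real.rpow_one 2
    · have s1 : ((D : ℝ) ^ j) ^ e ≤ (M : ℝ) ^ e :=
        Real.rpow_le_rpow_of_nonpos hMpos hMle h0.le
      rw [hpw] at s1
      linarith
  -- the bound for T
  have hTD : (M : ℝ) ^ e * D ≤ T.card := by
    have v1 : (M : ℝ) ^ e ≤ C * L * ρ * T.card := by
      have : (B'.card : ℝ) ≤ B.card := by exact_mod_cast hB'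
      linarith
    have v2 : C * L * ρ * D ≤ 1 := by nlinarith
    have hTc : (0 : ℝ) ≤ T.card := Nat.cast_nonneg _
    calc (M : ℝ) ^ e * D ≤ C * L * ρ * T.card * D := mul_le_mul_of_nonneg_right v1 hD0.le
      _ = (C * L * ρ * D) * T.card := by ring
      _ ≤ 1 * T.card := mul_le_mul_of_nonneg_right v2 hTc
      _ = T.card := one_mul _
  have hD1 : (D : ℝ) ^ (1 + (j : ℝ) * e) / 2 ≤ T.card := by
    rw [Real.rpow_add hD0, Real.rpow_one]
    calc (D : ℝ) * (D : ℝ) ^ ((j : ℝ) * e) / 2 = (D : ℝ) ^ ((j : ℝ) * e) / 2 * D := by ring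
      _ ≤ (M : ℝ) ^ e * D := mul_le_mul_of_nonneg_right hMe hD0.le
      _ ≤ T.card := hTD
  have hX1 : X ^ (1 + (j : ℝ) * e) / 2 ^ (j + 2) ≤ T.card := by
    refine le_trans ?_ hD1
    have w1 : (X / 2) ^ (1 + (j : ℝ) * e) ≤ (D : ℝ) ^ (1 + (j : ℝ) * e) :=
      Real.rpow_le_rpow (by positivity) hDX' hx2
    rw [Real.div_rpow hX0.le (by norm_num)] at w1
    have w2 : (2 : ℝ) ^ (1 + (j : ℝ) * e) ≤ 2 ^ (j + 1) := by
      calc (2 : ℝ) ^ (1 + (j : ℝ) * e) ≤ (2 : ℝ) ^ (1 + (j : ℝ)) :=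
            Real.rpow_le_rpow_of_exponent_le (by norm_num) hx3
        _ = 2 ^ (j + 1) := by
            rw [add_comm, ← Nat.cast_succ, Real.rpow_natCast]
    have hXe : 0 < X ^ (1 + (j : ℝ) * e) := Real.rpow_pos_of_pos hX0 _
    have w3 : X ^ (1 + (j : ℝ) * e) / 2 ^ (j + 1) ≤ X ^ (1 + (j : ℝ) * e) / 2 ^ (1 + (j : ℝ) * e) :=
      div_le_div_of_nonneg_left hXe.le (by positivity) w2
    have w4 : X ^ (1 + (j : ℝ) * e) / 2 ^ (j + 2) = X ^ (1 + (j : ℝ) * e) / 2 ^ (j + 1) / 2 := by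
      rw [div_div, ← pow_succ]
    rw [w4]
    linarith
  have hexp : ρ ^ (-(1 + j - c * j - ε / 2)) ≤ X ^ (1 + (j : ℝ) * e) := by
    rw [hX, ← Real.rpow_mul hρ.le]
    apply Real.rpow_le_rpow_of_exponent_ge hρ l4.le
    linarith
  have hsplit : ρ ^ (-((j : ℝ) + 1 - c * j - ε)) * ρ ^ (-(ε / 2)) =
      ρ ^ (-(1 + j - c * j - ε / 2)) := by
    rw [← Real.rpow_add hρ]
    congr 1
    ring
  have hP0 : 0 < ρ ^ (-((j : ℝ) + 1 - c * j - ε)) := Real.rpow_pos_of_pos hρ _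
  calc ρ ^ (-((j : ℝ) + 1 - c * j - ε))
      = ρ ^ (-((j : ℝ) + 1 - c * j - ε)) * 2 ^ (j + 2) / 2 ^ (j + 2) := by field_simp
    _ ≤ ρ ^ (-((j : ℝ) + 1 - c * j - ε)) * ρ ^ (-(ε / 2)) / 2 ^ (j + 2) := by
        apply div_le_div_of_nonneg_right _ (by positivity)
        exact mul_le_mul_of_nonneg_left b3 hP0.le
    _ = ρ ^ (-(1 + j - c * j - ε / 2)) / 2 ^ (j + 2) := by rw [hsplit]
    _ ≤ X ^ (1 + (j : ℝ) * e) / 2 ^ (j + 2) := div_le_div_of_nonneg_right hexp (by positivity)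
    _ ≤ T.card := hX1

end Pool.Agent.BK
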